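import Pool.Agent.W317.DR.Stm

/-! Task DR-CARD. -/

set_option autoImplicit false

namespace Pool.Agent.W22.DR

open Pool.Agent.W317.DR

variable {I : Type} [Fintype I] [DecidableEq I] {p : Par I}

lemma I_nonempty (p : Par I) : Nonempty I := by
  have := p.beta_ge
  exact Fintype.card_pos_iff.1 (by omega)

lemma X_nonempty (c : RC p) (i : I) : (c.X i).Nonempty := by
  rw [← Finset.card_pos, c.cX]
  have := p.x_hh i
  omega

lemma F_nonempty (c : RC p) : c.F.Nonempty := by
  rw [← Finset.card_pos, c.cF]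
  have := p.nF_gt
  omega

lemma hl_pos (p : Par I) : 0 < p.hl := by
  have := p.hl_ge
  have h2 : 0 < 2 ^ (Fintype.card I + 3) := by positivity
  omega

lemma T_nonempty (c : RC p) (i : I) : (c.T i).Nonempty := by
  rw [← Finset.card_pos, c.cT]
  have := p.q_hl i
  have := hl_pos p
  omega

lemma card_PX (c : RC p) (i : I) : (c.X i \ c.T i).card = p.x i - p.q i := by
  rw [Finset.card_sdiff_of_subset (c.TX i), c.cX, c.cT]

lemma P_nonempty (c : RC p) (i : I) : (c.X i \ c.T i).Nonempty := by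
  rw [← Finset.card_pos, card_PX]
  have := p.p_hl i
  have := hl_pos p
  omega

lemma mem_core {c : RC p} {j : I} {v : ℕ} :
    v ∈ c.core j ↔ v ∈ c.F ∨ v ∈ c.T j ∨ ∃ l ∈ p.N j, v ∈ c.X l := by
  simp [RC.core, Finset.mem_union, Finset.mem_biUnion]

lemma mem_PP {c : RC p} {v : ℕ} : v ∈ c.PP ↔ ∃ l, v ∈ c.X l ∧ v ∉ c.T l := by
  simp [RC.PP, Finset.mem_biUnion]

lemma mem_QQ {c : RC p} {v : ℕ} : v ∈ c.QQ ↔ ∃ l, v ∈ c.T l := by
  simp [RC.QQ, Finset.mem_biUnion]

lemma X_unique {c : RC p} {i j : I} {v : ℕ} (hi : v ∈ c.X i) (hj : v ∈ c.X j) : i = j := by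
  by_contra h
  exact Finset.disjoint_left.1 (c.XX i j h) hi hj

lemma notF_of_X {c : RC p} {i : I} {v : ℕ} (hi : v ∈ c.X i) : v ∉ c.F :=
  fun h => Finset.disjoint_left.1 (c.FX i) h hi

lemma PP_X {c : RC p} {v : ℕ} (h : v ∈ c.PP) : ∃ l, v ∈ c.X l := by
  obtain ⟨l, hl, -⟩ := mem_PP.1 h
  exact ⟨l, hl⟩

lemma QQ_X {c : RC p} {v : ℕ} (h : v ∈ c.QQ) : ∃ l, v ∈ c.X l := by
  obtain ⟨l, hl⟩ := mem_QQ.1 h
  exact ⟨l, c.TX l hl⟩

lemma z_notin_PP (c : RC p) : c.z ∉ c.PP := fun h => by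
  obtain ⟨l, hl⟩ := PP_X h
  exact c.zX l hl

lemma z_notin_QQ (c : RC p) : c.z ∉ c.QQ := fun h => by
  obtain ⟨l, hl⟩ := QQ_X h
  exact c.zX l hl

lemma core_inj (c : RC p) : Function.Injective c.core := by
  intro i j hij
  by_contra hne
  have h1 := p.N_far i j hne
  have h2 : ∃ l ∈ p.N i \ p.N j, l ≠ j := by
    apply Finset.exists_mem_ne
    omega
  obtain ⟨l, hl, hlj⟩ := h2
  rw [Finset.mem_sdiff] at hl
  obtain ⟨v, hv⟩ := X_nonempty c l
  have h3 : v ∈ c.core i := mem_core.2 (Or.inr (Or.inr ⟨l, hl.1, hv⟩))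
  rw [hij, mem_core] at h3
  rcases h3 with h | h | ⟨l', hl', h⟩
  · exact notF_of_X hv h
  · exact hlj (X_unique hv (c.TX j h))
  · rw [← X_unique hv h] at hl'
    exact hl.2 hl'

lemma coreS_card (c : RC p) : c.coreS.card = Fintype.card I := by
  rw [RC.coreS, Finset.card_image_of_injective _ (core_inj c), Finset.card_univ]

lemma F_sub_core (c : RC p) (j : I) : c.F ⊆ c.core j := fun _ hv => mem_core.2 (Or.inl hv)

lemma F_notin_ga (c : RC p) {v : ℕ} (hv : v ∈ c.F) : v ∉ c.ga := by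
  intro h
  rw [RC.ga, Finset.mem_insert] at h
  rcases h with rfl | h
  · exact c.zF hv
  · obtain ⟨l, hl⟩ := PP_X h
    exact notF_of_X hl hv

lemma F_notin_gb (c : RC p) {v : ℕ} (hv : v ∈ c.F) : v ∉ c.gb := by
  intro h
  rw [RC.gb, Finset.mem_insert] at h
  rcases h with rfl | h
  · exact c.zF hv
  · obtain ⟨l, hl⟩ := QQ_X h
    exact notF_of_X hl hv

lemma ga_notin (c : RC p) : c.ga ∉ c.coreS := by
  intro h
  rw [RC.coreS, Finset.mem_image] at h
  obtain ⟨j, -, hj⟩ := h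
  obtain ⟨v, hv⟩ := F_nonempty c
  apply F_notin_ga c hv
  rw [← hj]
  exact F_sub_core c j hv

lemma gb_notin (c : RC p) : c.gb ∉ c.coreS := by
  intro h
  rw [RC.coreS, Finset.mem_image] at h
  obtain ⟨j, -, hj⟩ := h
  obtain ⟨v, hv⟩ := F_nonempty c
  apply F_notin_gb c hv
  rw [← hj]
  exact F_sub_core c j hv

lemma ga_ne_gb (c : RC p) : c.ga ≠ c.gb := by
  intro h
  obtain ⟨i⟩ := I_nonempty p
  obtain ⟨v, hv⟩ := T_nonempty c i
  have h1 : v ∈ c.gb := Finset.mem_insert_of_mem (mem_QQ.2 ⟨i, hv⟩)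
  rw [← h, RC.ga, Finset.mem_insert] at h1
  rcases h1 with rfl | h1
  · exact c.zX i (c.TX i hv)
  · obtain ⟨l, hl1, hl2⟩ := mem_PP.1 h1
    rw [X_unique hl1 (c.TX i hv)] at hl2
    exact hl2 hv

lemma mem_edges_cover {c : RC p} {e : Finset ℕ} (he : e ∈ c.edges) {v : ℕ} (hv : v ∈ e) :
    v = c.z ∨ v ∈ c.F ∨ ∃ l, v ∈ c.X l := by
  rw [RC.edges, Finset.mem_insert, Finset.mem_insert] at he
  rcases he with rfl | rfl | he
  · rw [RC.ga, Finset.mem_insert] at hv
    rcases hv with h | h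
    · exact Or.inl h
    · exact Or.inr (Or.inr (PP_X h))
  · rw [RC.gb, Finset.mem_insert] at hv
    rcases hv with h | h
    · exact Or.inl h
    · exact Or.inr (Or.inr (QQ_X h))
  · rw [RC.coreS, Finset.mem_image] at he
    obtain ⟨j, -, rfl⟩ := he
    rcases mem_core.1 hv with h | h | ⟨l, -, h⟩
    · exact Or.inr (Or.inl h)
    · exact Or.inr (Or.inr ⟨j, c.TX j h⟩)
    · exact Or.inr (Or.inr ⟨l, h⟩)

lemma W_notin_edge {h : HC p} {e : Finset ℕ} (he : e ∈ h.toRC.edges) {v : ℕ} (hv : v ∈ e) :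
    v ∉ h.W := by
  intro hW
  rcases mem_edges_cover he hv with h1 | h1 | ⟨l, h1⟩
  · rw [h1] at hW
    exact h.zW hW
  · exact Finset.disjoint_left.1 h.WF hW h1
  · exact Finset.disjoint_left.1 (h.WX l) hW h1

lemma card_WS (h : HC p) (s : Fin p.r) : (h.W \ h.S s).card = (p.r - 1) * p.w + p.w0 := by
  rw [Finset.card_sdiff_of_subset (h.SW s), h.cW, h.cS]
  have h1 := p.r_ge
  obtain ⟨r', hr'⟩ : ∃ r', p.r = r' + 1 := ⟨p.r - 1, by omega⟩
  rw [hr', add_mul, one_mul, Nat.add_sub_cancel]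
  omega

lemma flex_notin (h : HC p) (s : Fin p.r) : h.flex s ∉ h.toRC.edges := by
  intro he
  have h1 : (h.W \ h.S s).Nonempty := by
    rw [← Finset.card_pos, card_WS]
    have := p.w0_ge
    omega
  obtain ⟨v, hv⟩ := h1
  have h2 : v ∈ h.flex s :=
    Finset.mem_insert_of_mem (Finset.mem_union_right _ hv)
  exact W_notin_edge he h2 (Finset.mem_sdiff.1 hv).1

lemma w_pos (p : Par I) : 0 < p.w := by
  have := p.w_gt
  omega

lemma flex_inj (h : HC p) : Function.Injective h.flex := by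
  intro s t hst
  by_contra hne
  have h1 : (h.S s).Nonempty := by
    rw [← Finset.card_pos, h.cS]
    exact w_pos p
  obtain ⟨v, hv⟩ := h1
  have hvW := h.SW s hv
  have hvt : v ∉ h.S t := fun h' => Finset.disjoint_left.1 (h.SS s t hne) hv h'
  have h2 : v ∈ h.flex t :=
    Finset.mem_insert_of_mem (Finset.mem_union_right _ (Finset.mem_sdiff.2 ⟨hvW, hvt⟩))
  rw [← hst, HC.flex, Finset.mem_insert, Finset.mem_union, Finset.mem_sdiff] at h2
  rcases h2 with rfl | h2 | h2
  · exact h.zW hvW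
  · exact Finset.disjoint_left.1 h.WF hvW h2
  · exact h2.2 hv

lemma edges_card (c : RC p) : c.edges.card = Fintype.card I + 2 := by
  rw [RC.edges, Finset.card_insert_of_notMem, Finset.card_insert_of_notMem, coreS_card]
  · exact gb_notin c
  · rw [Finset.mem_insert, not_or]
    exact ⟨ga_ne_gb c, ga_notin c⟩

lemma hedges_card (h : HC p) : h.hedges.card = Fintype.card I + 2 + p.r := by
  rw [HC.hedges, Finset.card_union_of_disjoint, edges_card,
    Finset.card_image_of_injective _ (flex_inj h), Finset.card_univ, Fintype.card_fin]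
  rw [Finset.disjoint_left]
  intro e he he'
  rw [Finset.mem_image] at he'
  obtain ⟨s, -, rfl⟩ := he'
  exact flex_notin h s he

lemma core_card (c : RC p) (j : I) : (c.core j).card = p.k := by
  rw [← p.k_core j, RC.core, Finset.card_union_of_disjoint, Finset.card_union_of_disjoint,
    Finset.card_biUnion, c.cF, c.cT]
  · simp only [c.cX]
  · intro i _ l _ hil
    exact c.XX i l hil
  · rw [Finset.disjoint_left]
    intro v hv hv'
    rw [Finset.mem_biUnion] at hv'
    obtain ⟨l, hl, hvl⟩ := hv'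
    rw [← X_unique (c.TX j hv) hvl] at hl
    exact p.N_irr j hl
  · rw [Finset.disjoint_left]
    intro v hv hv'
    rw [Finset.mem_union, Finset.mem_biUnion] at hv'
    rcases hv' with h | ⟨l, -, h⟩
    · exact notF_of_X (c.TX j h) hv
    · exact notF_of_X h hv

lemma ga_card (c : RC p) : c.ga.card = p.k := by
  rw [← p.k_a, RC.ga, Finset.card_insert_of_notMem (z_notin_PP c), RC.PP, Finset.card_biUnion]
  · simp only [card_PX]
    ring
  · intro i _ l _ hil
    exact (c.XX i l hil).mono Finset.sdiff_subset Finset.sdiff_subset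

lemma gb_card (c : RC p) : c.gb.card = p.k := by
  rw [← p.k_b, RC.gb, Finset.card_insert_of_notMem (z_notin_QQ c), RC.QQ, Finset.card_biUnion]
  · simp only [c.cT]
    ring
  · intro i _ l _ hil
    exact (c.XX i l hil).mono (c.TX i) (c.TX l)

lemma flex_card (h : HC p) (s : Fin p.r) : (h.flex s).card = p.k := by
  rw [← p.k_f, HC.flex, Finset.card_insert_of_notMem, Finset.card_union_of_disjoint, card_WS, h.cF]
  · ring
  · exact (h.WF.mono_left Finset.sdiff_subset).symm
  · rw [Finset.mem_union, not_or]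
    exact ⟨h.zF, fun h' => h.zW (Finset.mem_sdiff.1 h').1⟩

lemma edges_k (c : RC p) : ∀ e ∈ c.edges, e.card = p.k := by
  intro e he
  rw [RC.edges, Finset.mem_insert, Finset.mem_insert] at he
  rcases he with rfl | rfl | he
  · exact ga_card c
  · exact gb_card c
  · rw [RC.coreS, Finset.mem_image] at he
    obtain ⟨j, -, rfl⟩ := he
    exact core_card c j

lemma hedges_k (h : HC p) : ∀ e ∈ h.hedges, e.card = p.k := by
  intro e he
  rw [HC.hedges, Finset.mem_union, Finset.mem_image] at he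
  rcases he with he | ⟨s, -, rfl⟩
  · exact edges_k h.toRC e he
  · exact flex_card h s

theorem card : S_CARD := by
  intro I _ _ p
  exact ⟨coreS_card, fun c => ⟨ga_notin c, gb_notin c, ga_ne_gb c⟩, flex_notin, flex_inj,
    hedges_card, hedges_k, edges_k⟩

end Pool.Agent.W22.DR
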