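import Pool.Agent.W317.DR.Stm

/-! Task DR-GL: the game lemma. -/

set_option autoImplicit false

namespace Pool.Agent.W22.DR.GL

open Pool.Agent.W317.DR

/-- the play of two strategies; the second player's strategy may use the whole history -/
noncomputable def play (s : List (Finset ℕ) → Finset ℕ)
    (T : (i : ℕ) → (Fin i → Finset ℕ) → Finset ℕ) (i : ℕ) : Finset ℕ :=
  if Even i then s (List.ofFn fun j : Fin i => play s T j)
  else T i (fun j : Fin i => play s T j)
termination_by i
decreasing_by
  all_goals exact j.2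

/-- edges of the first player before time `i` -/
def posA (m : ℕ → Finset ℕ) (i : ℕ) : Finset (Finset ℕ) :=
  ((Finset.range i).filter fun j => Even j).image m

/-- edges of the second player before time `i` -/
def posB (m : ℕ → Finset ℕ) (i : ℕ) : Finset (Finset ℕ) :=
  ((Finset.range i).filter fun j => ¬ Even j).image m

lemma posA_congr {m m' : ℕ → Finset ℕ} {i : ℕ} (h : ∀ j < i, m j = m' j) :
    posA m i = posA m' i := by
  unfold posA
  apply Finset.image_congr
  intro j hj
  simp only [Finset.coe_filter, Finset.mem_range, Set.mem_ofPred_eq] at hj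
  exact h j hj.1

lemma posB_congr {m m' : ℕ → Finset ℕ} {i : ℕ} (h : ∀ j < i, m j = m' j) :
    posB m i = posB m' i := by
  unfold posB
  apply Finset.image_congr
  intro j hj
  simp only [Finset.coe_filter, Finset.mem_range, Set.mem_ofPred_eq] at hj
  exact h j hj.1

lemma mem_posA {m : ℕ → Finset ℕ} {i : ℕ} {x : Finset ℕ} :
    x ∈ posA m i ↔ ∃ j < i, Even j ∧ m j = x := by
  simp [posA, and_assoc]

lemma mem_posB {m : ℕ → Finset ℕ} {i : ℕ} {x : Finset ℕ} :
    x ∈ posB m i ↔ ∃ j < i, ¬ Even j ∧ m j = x := by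
  simp [posB, and_assoc]

lemma posA_two (m : ℕ → Finset ℕ) {i : ℕ} (hi : Even i) :
    posA m (i + 2) = insert (m i) (posA m i) := by
  ext x
  rw [mem_posA, Finset.mem_insert, mem_posA]
  constructor
  · rintro ⟨j, hj, hje, rfl⟩
    rcases eq_or_ne j i with rfl | h
    · exact Or.inl rfl
    · refine Or.inr ⟨j, ?_, hje, rfl⟩
      have : j ≠ i + 1 := by
        rintro rfl
        exact Nat.not_even_iff_odd.2 (hi.add_one) hje
      omega
  · rintro (rfl | ⟨j, hj, hje, rfl⟩)
    · exact ⟨i, by omega, hi, rfl⟩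
    · exact ⟨j, by omega, hje, rfl⟩

lemma posB_two (m : ℕ → Finset ℕ) {i : ℕ} (hi : Even i) :
    posB m (i + 2) = insert (m (i + 1)) (posB m i) := by
  ext x
  rw [mem_posB, Finset.mem_insert, mem_posB]
  constructor
  · rintro ⟨j, hj, hje, rfl⟩
    rcases eq_or_ne j (i + 1) with rfl | h
    · exact Or.inl rfl
    · refine Or.inr ⟨j, ?_, hje, rfl⟩
      have : j ≠ i := by
        rintro rfl
        exact hje hi
      omega
  · rintro (rfl | ⟨j, hj, hje, rfl⟩)
    · exact ⟨i + 1, by omega, Nat.not_even_iff_odd.2 hi.add_one, rfl⟩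
    · exact ⟨j, by omega, hje, rfl⟩

section

open Classical in
/-- the answer of the second player -/
noncomputable def ansF (k n : ℕ) (H : Finset (Finset (Fin n)))
    (Good : Finset (Finset ℕ) → Finset (Finset ℕ) → Prop) (x : Finset ℕ)
    (A B C : Finset (Finset ℕ)) : Finset ℕ :=
  if h : ∃ y : Finset ℕ, y.card = k ∧ y ∉ insert x A ∧ y ∉ B ∧
      (Good (insert x A) (insert y B) ∨ HasCopy H (insert y B))
  then h.choose
  else if h2 : ∃ y : Finset ℕ, y.card = k ∧ y ∉ C then h2.choose else ∅

/-- the answer of the second player -/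
noncomputable def ans (k n : ℕ) (H : Finset (Finset (Fin n)))
    (Good : Finset (Finset ℕ) → Finset (Finset ℕ) → Prop) (i : ℕ) (m : ℕ → Finset ℕ) :
    Finset ℕ :=
  ansF k n H Good (m i) (posA m i) (posB m i) ((Finset.range (i + 1)).image m)

lemma ans_congr (k n : ℕ) (H : Finset (Finset (Fin n)))
    (Good : Finset (Finset ℕ) → Finset (Finset ℕ) → Prop) (i : ℕ) {m m' : ℕ → Finset ℕ}
    (h : ∀ j ≤ i, m j = m' j) : ans k n H Good i m = ans k n H Good i m' := by
  have h1 : posA m i = posA m' i := posA_congr fun j hj => h j hj.le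
  have h2 : posB m i = posB m' i := posB_congr fun j hj => h j hj.le
  have h3 : m i = m' i := h i le_rfl
  have h4 : (Finset.range (i + 1)).image m = (Finset.range (i + 1)).image m' := by
    apply Finset.image_congr
    intro j hj
    simp only [Finset.coe_range, Set.mem_Iio] at hj
    exact h j (by omega)
  rw [ans, ans, h1, h2, h3, h4]

end

/-- there are enough sets of a given positive size -/
lemma exists_new (k : ℕ) (hk : 1 ≤ k) (G : Finset (Finset ℕ)) :
    ∃ y : Finset ℕ, y.card = k ∧ y ∉ G := by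
  set M := G.sup (fun e => e.sup id) with hM
  refine ⟨(Finset.range k).map ⟨fun i => M + 1 + i, fun a b h => by simpa using h⟩, ?_, ?_⟩
  · simp
  · intro h
    have h1 : M + 1 + 0 ∈ (Finset.range k).map
        ⟨fun i => M + 1 + i, fun a b h => by simpa using h⟩ := by
      rw [Finset.mem_map]
      exact ⟨0, Finset.mem_range.2 (by omega), rfl⟩
    have h2 : M + 1 + 0 ≤ M := by
      refine le_trans ?_ (Finset.le_sup (f := fun e : Finset ℕ => e.sup id) h)
      exact Finset.le_sup (f := id) h1
    omega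

theorem gl : S_GL := by
  intro k n H Good h0 hstep
  rintro ⟨s, hs⟩
  -- `k` is positive
  have hk : 1 ≤ k := by
    by_contra hk
    have hk0 : k = 0 := by omega
    obtain ⟨-, y, hy, hy2, -⟩ := hstep ∅ ∅ h0 ∅ (by simp [hk0]) (by simp) (by simp)
    rw [hk0, Finset.card_eq_zero] at hy
    apply hy2
    rw [hy]
    simp
  set T : (i : ℕ) → (Fin i → Finset ℕ) → Finset ℕ := fun i g =>
    ans k n H Good (i - 1) (fun j => if h : j < i then g ⟨j, h⟩ else ∅) with hT
  set m := play s T with hm
  have hme : ∀ i, Even i → m i = s (List.ofFn fun j : Fin i => m j) := by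
    intro i hi
    rw [hm, play, if_pos hi]
  have hmo : ∀ i, Even i → m (i + 1) = ans k n H Good i m := by
    intro i hi
    have h1 : ¬ Even (i + 1) := Nat.not_even_iff_odd.2 hi.add_one
    rw [hm, play, if_neg h1, hT]
    simp only [Nat.add_sub_cancel]
    apply ans_congr
    intro j hj
    rw [dif_pos (by omega)]
  -- legality of the second player
  have hlegal : ∀ i, Even i → (m (i + 1)).card = k ∧ ∀ j ≤ i, m j ≠ m (i + 1) := by
    intro i hi
    rw [hmo i hi, ans, ansF]
    split_ifs with h1 h2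
    · obtain ⟨a, b, c, -⟩ := h1.choose_spec
      refine ⟨a, fun j hj he => ?_⟩
      rw [← he] at b c
      rcases eq_or_ne j i with rfl | hne
      · exact b (Finset.mem_insert_self _ _)
      · by_cases hje : Even j
        · exact b (Finset.mem_insert_of_mem (mem_posA.2 ⟨j, by omega, hje, rfl⟩))
        · exact c (mem_posB.2 ⟨j, by omega, hje, rfl⟩)
    · obtain ⟨a, b⟩ := h2.choose_spec
      refine ⟨a, fun j hj he => b ?_⟩
      rw [← he, Finset.mem_image]
      exact ⟨j, Finset.mem_range.2 (by omega), rfl⟩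
    · exfalso
      apply h2
      obtain ⟨y, hy, hy2⟩ := exists_new k hk ((Finset.range (i + 1)).image m)
      exact ⟨y, hy, hy2⟩
  obtain ⟨N, hN, hN1, ⟨f, hf, hf2⟩, hN3⟩ := hs m hme (by
    intro i hi
    obtain ⟨l, rfl⟩ := hi
    obtain ⟨a, b⟩ := hlegal (2 * l) (even_two_mul l)
    exact ⟨a, fun j hj => b j (by omega)⟩)
  -- legality of the moves of the first player
  have hleg : ∀ i, Even i → i ≤ N → (m i).card = k ∧ m i ∉ posA m i ∧ m i ∉ posB m i := by
    intro i hi hiN
    obtain ⟨a, b⟩ := hN1 i hiN hi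
    refine ⟨a, fun h => ?_, fun h => ?_⟩
    · obtain ⟨j, hj, -, hjm⟩ := mem_posA.1 h
      exact b j hj hjm
    · obtain ⟨j, hj, -, hjm⟩ := mem_posB.1 h
      exact b j hj hjm
  -- the position is good
  have hgood : ∀ l, 2 * l ≤ N → Good (posA m (2 * l)) (posB m (2 * l)) := by
    intro l
    induction l with
    | zero =>
      intro _
      simpa [posA, posB] using h0
    | succ l ih =>
      intro hl
      have hi : Even (2 * l) := even_two_mul l
      obtain ⟨a, b, c⟩ := hleg (2 * l) hi (by omega)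
      obtain ⟨-, hex⟩ := hstep _ _ (ih (by omega)) (m (2 * l)) a b c
      have h1 : 2 * (l + 1) = 2 * l + 2 := by ring
      rw [h1, posA_two m hi, posB_two m hi]
      have h2 : m (2 * l + 1) = hex.choose := by
        rw [hmo (2 * l) hi, ans, ansF, dif_pos hex]
      obtain ⟨-, -, -, h3⟩ := hex.choose_spec
      rw [← h2] at h3
      rcases h3 with h3 | h3
      · exact h3
      · exfalso
        apply hN3
        obtain ⟨g, hg, hg2⟩ := h3
        refine ⟨g, hg, fun e he => ?_⟩
        have h4 := hg2 e he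
        rw [← posB_two m hi] at h4
        obtain ⟨j, hj, hj2, hj3⟩ := mem_posB.1 h4
        exact ⟨j, by omega, Nat.not_even_iff_odd.1 hj2, hj3⟩
  obtain ⟨l, hl⟩ := hN
  have hl2 : N = 2 * l := by omega
  subst hl2
  have hN' : Even (2 * l) := even_two_mul l
  obtain ⟨a, b, c⟩ := hleg (2 * l) hN' le_rfl
  obtain ⟨h1, -⟩ := hstep _ _ (hgood l le_rfl) (m (2 * l)) a b c
  apply h1
  refine ⟨f, hf, fun e he => ?_⟩
  obtain ⟨i, hi, hie, him⟩ := hf2 e he
  rw [← posA_two m hN']
  exact mem_posA.2 ⟨i, by omega, hie, him⟩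

end Pool.Agent.W22.DR.GL
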