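import Pool.Agent.W22.DR.Card

/-! Task DR-L4. -/

set_option autoImplicit false

namespace Pool.Agent.W22.DR

open Pool.Agent.W317.DR

section

variable {I : Type} [Fintype I] [DecidableEq I] {p : Par I}

lemma SameFr.symm {c c' : RC p} (h : c.SameFr c') : c'.SameFr c := ⟨h.1.symm, h.2.symm⟩

lemma SameFr.trans {c c' c'' : RC p} (h : c.SameFr c') (h' : c'.SameFr c'') : c.SameFr c'' :=
  ⟨h.1.trans h'.1, h.2.trans h'.2⟩

lemma edges_sub (h : HC p) : h.toRC.edges ⊆ h.hedges := Finset.subset_union_left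

lemma F_sub_flex (h : HC p) (s : Fin p.r) : h.F ⊆ h.flex s := fun _ hv =>
  Finset.mem_insert_of_mem (Finset.mem_union_left _ hv)

lemma gadget_notin (hT : S_TYPE) {c : RC p} {h : HC p} (hfr : c.SameFr h.toRC)
    (hne : c ≠ h.toRC) : c.ga ∉ h.hedges ∧ c.gb ∉ h.hedges := by
  obtain ⟨t1, t2, t3, t4, t5, -⟩ := hT I p c h.toRC hfr
  obtain ⟨s1, -⟩ := hT I p h.toRC c (SameFr.symm hfr)
  obtain ⟨v, hv⟩ := F_nonempty c
  have hv' : v ∈ h.F := by
    rw [← hfr.1]
    exact hv
  constructor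
  · intro hmem
    rw [HC.hedges, Finset.mem_union, RC.edges, Finset.mem_insert, Finset.mem_insert,
      Finset.mem_image] at hmem
    rcases hmem with (h1 | h1 | h1) | ⟨s, -, h1⟩
    · exact hne (t4 h1)
    · exact t1 h1
    · exact t2 h1
    · apply F_notin_ga c hv
      rw [← h1]
      exact F_sub_flex h s hv'
  · intro hmem
    rw [HC.hedges, Finset.mem_union, RC.edges, Finset.mem_insert, Finset.mem_insert,
      Finset.mem_image] at hmem
    rcases hmem with (h1 | h1 | h1) | ⟨s, -, h1⟩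
    · exact s1 h1.symm
    · exact hne (t5 h1)
    · exact t3 h1
    · apply F_notin_gb c hv
      rw [← h1]
      exact F_sub_flex h s hv'

end

theorem l4 (hT : S_TYPE) (h0 : S_CL0) (hNe : S_NEAR) (hH : S_THR) (hR : S_REF) (hG : S_GQ) :
    S_L4 := by
  intro I _ _ p N0 Y Y' A B Qu Te Fo x y y' c c' hF hxA hxB hc hc' hyy h hB
  obtain ⟨inv, hTe⟩ := hF
  have hex : ∃ c1 ρ, TeI p N0 A B Qu Te c1 ρ := by
    rcases hTe with rfl | hTe
    · exact ⟨c, fun _ => c, hR I p N0 Y Y' A B Qu Fo x y c (fun _ => c) inv hxA hxB hc⟩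
    · exact hTe
  obtain ⟨c1, ρ, te⟩ := hex
  have near := hNe I p N0 Y Y' A B Qu Te Fo c1 ρ x inv te
  have thr := hH I p A B x y c inv.hAB inv.nt hxA hxB hc
  have thr' := hH I p A B x y' c' inv.hAB inv.nt hxA hxB hc'
  obtain ⟨a1, -, -, a4, a5, -, a7⟩ := thr
  obtain ⟨b1, -, -, b4, b5, -, b7⟩ := thr'
  have fc : c.SameFr c1 := near c (by omega)
  have fc' : c'.SameFr c1 := near c' (by omega)
  by_contra hcon
  push Not at hcon
  have hcoresub : h.toRC.coreS ⊆ h.hedges := by
    refine Finset.Subset.trans ?_ (edges_sub h)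
    intro e he
    rw [RC.edges]
    exact Finset.mem_insert_of_mem (Finset.mem_insert_of_mem he)
  have fh : h.toRC.SameFr c1 := by
    apply near
    have e1 : (h.hedges \ h.toRC.coreS).card = p.r + 2 := by
      rw [Finset.card_sdiff_of_subset hcoresub, hedges_card, coreS_card]
      omega
    have e2 : h.hedges ∩ insert x A ⊆
        (h.toRC.coreS ∩ insert x A) ∪ (h.hedges \ h.toRC.coreS) := by
      intro e he
      rw [Finset.mem_inter] at he
      rw [Finset.mem_union, Finset.mem_inter, Finset.mem_sdiff]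
      by_cases hh : e ∈ h.toRC.coreS
      · exact Or.inl ⟨hh, he.2⟩
      · exact Or.inr ⟨he.1, hh⟩
    have e3 := (Finset.card_le_card e2).trans (Finset.card_union_le _ _)
    have e4 := inv.hQ1
    omega
  have hBe : Disjoint h.toRC.edges B := hB.mono_left (edges_sub h)
  -- (i)
  have noFo : ∀ e ∈ Fo, e ∉ h.hedges := by
    intro e he
    exact (h0 I p N0 Y Y' B c1 h e inv.hY te.pot fh (inv.fo e he)).2.2 hBe
  -- a copy whose edges meet `B` is not `h`
  have hne : ∀ t ∈ Te, ρ t ≠ h.toRC := by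
    intro t ht he
    obtain ⟨b, hb, hb2⟩ := te.blk t ht
    rw [he] at hb2
    exact Finset.disjoint_left.1 hBe hb2 hb
  have fρ : ∀ t ∈ Te, (ρ t).SameFr h.toRC := fun t ht =>
    SameFr.trans (te.fr t ht) (SameFr.symm fh)
  have hgad : ∀ t ∈ Te, (ρ t).ga ∉ h.hedges ∧ (ρ t).gb ∉ h.hedges := fun t ht =>
    gadget_notin hT (fρ t ht) (hne t ht)
  set Tc := Te.filter fun t => t ∈ (ρ t).coreS with hTc
  have hTsub : h.hedges ∩ Te ⊆ Tc := by
    intro t ht
    rw [Finset.mem_inter] at ht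
    rw [hTc, Finset.mem_filter]
    refine ⟨ht.2, ?_⟩
    have h1 := te.mem t ht.2
    rw [RC.edges, Finset.mem_insert, Finset.mem_insert] at h1
    rcases h1 with h1 | h1 | h1
    · exact absurd (h1 ▸ ht.1) (hgad t ht.2).1
    · exact absurd (h1 ▸ ht.1) (hgad t ht.2).2
    · exact h1
  set g : Finset ℕ → Finset ℕ := fun t => if (ρ t).ga ∈ Qu then (ρ t).ga else (ρ t).gb with hg
  have hgQ : ∀ t ∈ Tc, g t ∈ Qu := by
    intro t ht
    rw [hTc, Finset.mem_filter] at ht
    simp only [hg]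
    split_ifs with h1
    · exact h1
    · exact (te.gad t ht.1 ht.2).resolve_left h1
  have hgor : ∀ t, g t = (ρ t).ga ∨ g t = (ρ t).gb := by
    intro t
    simp only [hg]
    split_ifs
    · exact Or.inl rfl
    · exact Or.inr rfl
  -- two gadget edges in one frame determine the copy
  have hdet : ∀ (d d' : RC p) (G : Finset ℕ), d.SameFr d' → (G = d.ga ∨ G = d.gb) →
      (G = d'.ga ∨ G = d'.gb) → d = d' := by
    intro d d' G hfr h1 h2
    obtain ⟨t1, -, -, t4, t5, -⟩ := hT I p d d' hfr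
    obtain ⟨s1, -⟩ := hT I p d' d (SameFr.symm hfr)
    rcases h1 with h1 | h1 <;> rcases h2 with h2 | h2
    · exact t4 (h1.symm.trans h2)
    · exact absurd (h1.symm.trans h2) t1
    · exact absurd (h2.symm.trans h1) s1
    · exact t5 (h1.symm.trans h2)
  have hginj : Set.InjOn g Tc := by
    intro t ht t' ht' he
    have ht1 : t ∈ Te := (Finset.mem_filter.1 ht).1
    have ht1' : t' ∈ Te := (Finset.mem_filter.1 ht').1
    apply te.inj t ht1 t' ht1'
    apply hdet (ρ t) (ρ t') (g t)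
      (SameFr.trans (te.fr t ht1) (SameFr.symm (te.fr t' ht1'))) (hgor t)
    rw [he]
    exact hgor t'
  have hgh : ∀ t ∈ Tc, g t ∉ h.hedges := by
    intro t ht
    have ht1 : t ∈ Te := (Finset.mem_filter.1 ht).1
    rcases hgor t with h1 | h1
    · rw [h1]
      exact (hgad t ht1).1
    · rw [h1]
      exact (hgad t ht1).2
  -- the extra gadget edge
  have hcc : c ≠ c' := by
    rintro rfl
    rw [a5] at b5
    exact hyy (Finset.singleton_injective b5)
  have fcc : c.SameFr c' := SameFr.trans fc (SameFr.symm fc')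
  have hcore : ∀ (d d' : RC p), d.SameFr d' → d ≠ d' → x ∈ d.edges → x ∈ d'.edges →
      x ∈ d.coreS := by
    intro d d' hfr hd h1 h2
    obtain ⟨t1, t2, t3, t4, t5, -⟩ := hT I p d d' hfr
    obtain ⟨s1, -⟩ := hT I p d' d (SameFr.symm hfr)
    rw [RC.edges, Finset.mem_insert, Finset.mem_insert] at h1 h2
    rcases h1 with h1 | h1 | h1
    · exfalso
      rcases h2 with h2 | h2 | h2
      · exact hd (t4 (h1.symm.trans h2))
      · exact t1 (h1.symm.trans h2)
      · exact t2 (h1 ▸ h2)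
    · exfalso
      rcases h2 with h2 | h2 | h2
      · exact s1 (h2.symm.trans h1)
      · exact hd (t5 (h1.symm.trans h2))
      · exact t3 (h1 ▸ h2)
    · exact h1
  have hxc : x ∈ c.coreS := hcore c c' fcc hcc a1 b1
  have hxc' : x ∈ c'.coreS := hcore c' c (SameFr.symm fcc) (Ne.symm hcc) b1 a1
  have hexd : ∃ (d : RC p) (w : Finset ℕ), d ≠ h.toRC ∧ d.SameFr c1 ∧
      Thr p (insert x A) B d w ∧ x ∈ d.coreS ∧ Disjoint d.edges B := by
    by_cases hch : c = h.toRC
    · refine ⟨c', y', ?_, fc', hc', hxc', b4⟩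
      intro h1
      exact hcc (hch.trans h1.symm)
    · exact ⟨c, y, hch, fc, hc, hxc, a4⟩
  obtain ⟨d, w, hdh, fd, hdw, hxd, hdB⟩ := hexd
  have fdh : d.SameFr h.toRC := SameFr.trans fd (SameFr.symm fh)
  obtain ⟨G, hGor, hGQ⟩ : ∃ G, (G = d.ga ∨ G = d.gb) ∧ G ∈ Qu := by
    rcases hG I p N0 Y Y' A B Qu Te Fo c1 ρ x w d inv te hxA hxB hdw hxd with h1 | h1
    · exact ⟨d.ga, Or.inl rfl, h1⟩
    · exact ⟨d.gb, Or.inr rfl, h1⟩
  have hGh : G ∉ h.hedges := by
    obtain ⟨g1, g2⟩ := gadget_notin hT fdh hdh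
    rcases hGor with h1 | h1
    · rw [h1]
      exact g1
    · rw [h1]
      exact g2
  have hGg : ∀ t ∈ Tc, g t ≠ G := by
    intro t ht he
    have ht1 : t ∈ Te := (Finset.mem_filter.1 ht).1
    have h1 : d = ρ t := by
      apply hdet d (ρ t) G (SameFr.trans fd (SameFr.symm (te.fr t ht1))) hGor
      rw [← he]
      exact hgor t
    obtain ⟨b, hb, hb2⟩ := te.blk t ht1
    rw [← h1] at hb2
    exact Finset.disjoint_left.1 hdB hb2 hb
  -- counting
  have c1' : (h.hedges ∩ Qu).card + (Tc.image g).card + 1 ≤ Qu.card := by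
    have hsub : insert G ((h.hedges ∩ Qu) ∪ Tc.image g) ⊆ Qu := by
      intro e he
      rw [Finset.mem_insert, Finset.mem_union, Finset.mem_inter, Finset.mem_image] at he
      rcases he with rfl | h1 | ⟨t, ht, rfl⟩
      · exact hGQ
      · exact h1.2
      · exact hgQ t ht
    have h1 := Finset.card_le_card hsub
    rw [Finset.card_insert_of_notMem, Finset.card_union_of_disjoint] at h1
    · exact h1
    · rw [Finset.disjoint_left]
      intro e he he'
      rw [Finset.mem_image] at he'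
      obtain ⟨t, ht, rfl⟩ := he'
      exact hgh t ht (Finset.mem_inter.1 he).1
    · rw [Finset.mem_union, not_or, Finset.mem_inter, Finset.mem_image]
      refine ⟨fun h1 => hGh h1.1, ?_⟩
      rintro ⟨t, ht, he⟩
      exact hGg t ht he
  have c2 : (Tc.image g).card = Tc.card := Finset.card_image_of_injOn hginj
  have c3 : (h.hedges ∩ Te).card ≤ Tc.card := Finset.card_le_card hTsub
  have c4 : h.hedges ∩ insert x A ⊆ insert x ((h.hedges ∩ Qu) ∪ (h.hedges ∩ Te)) := by
    intro e he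
    rw [Finset.mem_inter, Finset.mem_insert, inv.hA, Finset.mem_union, Finset.mem_union] at he
    rw [Finset.mem_insert, Finset.mem_union, Finset.mem_inter, Finset.mem_inter]
    obtain ⟨h1, h2 | h2 | h2 | h2⟩ := he
    · exact Or.inl h2
    · exact Or.inr (Or.inl ⟨h1, h2⟩)
    · exact Or.inr (Or.inr ⟨h1, h2⟩)
    · exact absurd h1 (noFo e h2)
  have c5 := (Finset.card_le_card c4).trans (Finset.card_insert_le _ _)
  have c6 := Finset.card_union_le (h.hedges ∩ Qu) (h.hedges ∩ Te)
  omega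

end Pool.Agent.W22.DR
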